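import Pool.Agent.EWG.StmtsB

set_option autoImplicit false

namespace Pool.Agent.EWG.H89

open Finset Pool.Agent.PrimeFourier

theorem bil_one {l : ℕ} (hl : l.Prime) {u : ℕ} (hu : u ∈ Ioo 0 l) :
    ((Ioo 0 l).filter (fun v => (u * v) % l = 1 % l)).card = 1 := by
  rw [mem_Ioo] at hu
  have hcop : Nat.Coprime u l := by
    have h := (Nat.Prime.coprime_iff_not_dvd hl (n := u)).2 (fun h => by
      have := Nat.le_of_dvd hu.1 h
      omega)
    exact h.symm
  have h1l : 1 % l = 1 := Nat.mod_eq_of_lt hl.one_lt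
  obtain ⟨m, hm⟩ := Nat.exists_mul_mod_eq_one_of_coprime hcop hl.one_lt
  rw [Finset.card_eq_one]
  refine ⟨m % l, ?_⟩
  ext v
  rw [mem_filter, mem_Ioo, mem_singleton]
  constructor
  · rintro ⟨⟨h1, h2⟩, h3⟩
    have h4 : u * v ≡ u * m [MOD l] := by
      rw [Nat.ModEq, h3, hm.2, h1l]
    have h5 := Nat.ModEq.cancel_left_of_coprime (show Nat.gcd l u = 1 from hcop.symm) h4
    rw [Nat.ModEq, Nat.mod_eq_of_lt h2] at h5
    exact h5
  · rintro rfl
    have h6 : (u * (m % l)) % l = 1 % l := by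
      rw [h1l, Nat.mul_mod, Nat.mod_mod, ← Nat.mul_mod]; exact hm.2
    refine ⟨⟨?_, Nat.mod_lt _ hl.pos⟩, h6⟩
    rcases Nat.eq_zero_or_pos (m % l) with h | h
    · rw [h, mul_zero, h1l, Nat.zero_mod] at h6
      omega
    · exact h

/-- grouping by classes -/
theorem bil_group (s : Finset ℕ) (a : ℕ → ℂ) (l : ℕ) (hl : 0 < l) (g : ℕ → ℂ)
    (hg : ∀ n, g n = g (n % l)) :
    ∑ n ∈ s, a n * g n = ∑ u ∈ range l, cls s a l u * g u := by
  rw [← Finset.sum_fiberwise_of_maps_to (t := range l) (g := fun n => n % l)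
    (fun n _ => mem_range.2 (Nat.mod_lt _ hl))]
  refine sum_congr rfl fun u _ => ?_
  unfold cls
  rw [Finset.sum_mul]
  refine sum_congr rfl fun n hn => ?_
  rw [mem_filter] at hn
  rw [hg n, hn.2]

theorem bil_center (s : Finset ℕ) (a : ℕ → ℂ) {l : ℕ} (hl : l.Prime) :
    ∑ u ∈ Ioo 0 l, (cls s a l u - mn s a l) = 0 := by
  rw [Finset.sum_sub_distrib, Finset.sum_const, Nat.card_Ioo, nsmul_eq_mul]
  unfold mn
  have h3 : ((l : ℂ) - 1) ≠ 0 := by
    have : (l : ℂ) ≠ 1 := by exact_mod_cast hl.one_lt.ne'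
    exact sub_ne_zero.2 this
  have h4 : ((l - 0 - 1 : ℕ) : ℂ) = (l : ℂ) - 1 := by
    rw [Nat.sub_zero, Nat.cast_sub hl.one_lt.le, Nat.cast_one]
  rw [h4, mul_div_cancel₀ _ h3, sub_self]

theorem bil : BilStmt := by
  intro S T a b l hl
  have h1l : 1 % l = 1 := Nat.mod_eq_of_lt hl.one_lt
  have h3 : ((l : ℂ) - 1) ≠ 0 := by
    have : (l : ℂ) ≠ 1 := by exact_mod_cast hl.one_lt.ne'
    exact sub_ne_zero.2 this
  set J := Ioo 0 l with hJ
  set K : ℕ → ℕ → ℂ := fun u v => if (u * v) % l = 1 % l then 1 else 0 with hK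
  have hDmod : ∀ m c : ℕ, D l (m * c) = D l (m % l * (c % l)) := by
    intro m c
    unfold D
    have e1 : (m % l * (c % l)) % l = (m * c) % l := (Nat.mul_mod m c l).symm
    have e2 : l ∣ m * c ↔ l ∣ m % l * (c % l) := by
      rw [Nat.dvd_iff_mod_eq_zero, Nat.dvd_iff_mod_eq_zero, e1]
    rw [e1]
    by_cases h : l ∣ m * c
    · rw [if_pos h, if_pos (e2.1 h)]
    · rw [if_neg h, if_neg (fun h' => h (e2.2 h'))]
  -- both groupings
  have hstep : ∑ m ∈ S, ∑ c ∈ T, a m * b c * ((D l (m * c) : ℝ) : ℂ) =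
      ∑ u ∈ range l, ∑ v ∈ range l, cls S a l u * (cls T b l v * ((D l (u * v) : ℝ) : ℂ)) := by
    have e1 : ∀ m ∈ S, ∑ c ∈ T, a m * b c * ((D l (m * c) : ℝ) : ℂ) =
        a m * ∑ v ∈ range l, cls T b l v * ((D l (m * v) : ℝ) : ℂ) := by
      intro m _
      rw [← bil_group T b l hl.pos (fun c => ((D l (m * c) : ℝ) : ℂ)) (fun n => by
        show ((D l (m * n) : ℝ) : ℂ) = ((D l (m * (n % l)) : ℝ) : ℂ)
        rw [hDmod m n, hDmod m (n % l), Nat.mod_mod]), Finset.mul_sum]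
      refine sum_congr rfl fun c _ => ?_
      ring
    rw [Finset.sum_congr rfl e1]
    rw [bil_group S a l hl.pos (fun m => ∑ v ∈ range l, cls T b l v * ((D l (m * v) : ℝ) : ℂ))
      (fun n => by
        refine sum_congr rfl fun v _ => ?_
        show cls T b l v * ((D l (n * v) : ℝ) : ℂ) = cls T b l v * ((D l (n % l * v) : ℝ) : ℂ)
        rw [hDmod n v, hDmod (n % l) v, Nat.mod_mod])]
    refine sum_congr rfl fun u _ => ?_
    rw [Finset.mul_sum]
  have hD0 : ∀ v, D l (0 * v) = 0 := by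
    intro v
    unfold D
    rw [zero_mul, Nat.zero_mod, h1l, if_neg (by norm_num), if_pos (dvd_zero l), sub_zero]
  have hD0' : ∀ u, D l (u * 0) = 0 := by
    intro u
    rw [mul_comm]; exact hD0 u
  have hrange : ∀ f : ℕ → ℂ, f 0 = 0 → ∑ u ∈ range l, f u = ∑ u ∈ J, f u := by
    intro f hf
    symm
    apply Finset.sum_subset
    · intro u hu
      rw [hJ, mem_Ioo] at hu
      exact mem_range.2 hu.2
    · intro u hu hu'
      rw [mem_range] at hu
      rw [hJ, mem_Ioo] at hu'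
      have : u = 0 := by omega
      rw [this]; exact hf
  have hDK : ∀ u ∈ J, ∀ v ∈ J, ((D l (u * v) : ℝ) : ℂ) = K u v - 1 / ((l : ℂ) - 1) := by
    intro u hu v hv
    rw [hJ, mem_Ioo] at hu hv
    have hnd : ¬ l ∣ u * v := by
      intro h
      rcases (Nat.Prime.dvd_mul hl).1 h with h | h
      · exact absurd (Nat.le_of_dvd hu.1 h) (by omega)
      · exact absurd (Nat.le_of_dvd hv.1 h) (by omega)
    unfold D
    rw [if_neg hnd]
    simp only [hK]
    split_ifs <;> push_cast <;> ring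
  have hrow : ∀ u ∈ J, ∑ v ∈ J, (K u v - 1 / ((l : ℂ) - 1)) = 0 := by
    intro u hu
    rw [Finset.sum_sub_distrib]
    have e1 : ∑ v ∈ J, K u v = 1 := by
      simp only [hK]
      rw [Finset.sum_ite, Finset.sum_const_zero, add_zero, Finset.sum_const, nsmul_eq_mul, mul_one,
        bil_one hl hu, Nat.cast_one]
    have h4 : ((l - 0 - 1 : ℕ) : ℂ) = (l : ℂ) - 1 := by
      rw [Nat.sub_zero, Nat.cast_sub hl.one_lt.le, Nat.cast_one]
    rw [e1, Finset.sum_const, hJ, Nat.card_Ioo, nsmul_eq_mul, h4, mul_one_div_cancel h3, sub_self]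
  have hKsymm : ∀ u v, K u v = K v u := by
    intro u v
    simp only [hK]
    rw [mul_comm u v]
  set α : ℕ → ℂ := fun u => cls S a l u - mn S a l with hα
  set β : ℕ → ℂ := fun v => cls T b l v - mn T b l with hβ
  have hmain : ∑ m ∈ S, ∑ c ∈ T, a m * b c * ((D l (m * c) : ℝ) : ℂ) =
      ∑ u ∈ J, ∑ v ∈ J, α u * β v * K u v := by
    rw [hstep]
    rw [hrange (fun u => ∑ v ∈ range l, cls S a l u * (cls T b l v * ((D l (u * v) : ℝ) : ℂ)))
      (by
        show ∑ v ∈ range l, cls S a l 0 * (cls T b l v * ((D l (0 * v) : ℝ) : ℂ)) = 0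
        apply Finset.sum_eq_zero
        intro v _
        rw [hD0 v, Complex.ofReal_zero, mul_zero, mul_zero])]
    have e1 : ∀ u ∈ J, ∑ v ∈ range l, cls S a l u * (cls T b l v * ((D l (u * v) : ℝ) : ℂ)) =
        ∑ v ∈ J, cls S a l u * (cls T b l v * (K u v - 1 / ((l : ℂ) - 1))) := by
      intro u hu
      rw [hrange (fun v => cls S a l u * (cls T b l v * ((D l (u * v) : ℝ) : ℂ)))
        (by
          show cls S a l u * (cls T b l 0 * ((D l (u * 0) : ℝ) : ℂ)) = 0
          rw [hD0' u, Complex.ofReal_zero, mul_zero, mul_zero])]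
      refine sum_congr rfl fun v hv => ?_
      rw [hDK u hu v hv]
    rw [Finset.sum_congr rfl e1]
    -- replace `cls T b l v` by `β v`
    have e2 : ∀ u ∈ J, ∑ v ∈ J, cls S a l u * (cls T b l v * (K u v - 1 / ((l : ℂ) - 1))) =
        ∑ v ∈ J, cls S a l u * (β v * (K u v - 1 / ((l : ℂ) - 1))) := by
      intro u hu
      have e3 : ∑ v ∈ J, cls S a l u * (mn T b l * (K u v - 1 / ((l : ℂ) - 1))) = 0 := by
        rw [← Finset.mul_sum, ← Finset.mul_sum, hrow u hu, mul_zero, mul_zero]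
      rw [← sub_eq_zero, ← Finset.sum_sub_distrib, ← e3]
      refine sum_congr rfl fun v _ => ?_
      simp only [hβ]
      ring
    rw [Finset.sum_congr rfl e2, Finset.sum_comm]
    have e4 : ∀ v ∈ J, ∑ u ∈ J, cls S a l u * (β v * (K u v - 1 / ((l : ℂ) - 1))) =
        ∑ u ∈ J, α u * (β v * (K u v - 1 / ((l : ℂ) - 1))) := by
      intro v hv
      have e3 : ∑ u ∈ J, mn S a l * (β v * (K u v - 1 / ((l : ℂ) - 1))) = 0 := by
        rw [← Finset.mul_sum, ← Finset.mul_sum]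
        have e5 : ∑ u ∈ J, (K u v - 1 / ((l : ℂ) - 1)) = 0 := by
          rw [← hrow v hv]
          refine sum_congr rfl fun u _ => ?_
          rw [hKsymm]
        rw [e5, mul_zero, mul_zero]
      rw [← sub_eq_zero, ← Finset.sum_sub_distrib, ← e3]
      refine sum_congr rfl fun u _ => ?_
      simp only [hα]
      ring
    rw [Finset.sum_congr rfl e4, Finset.sum_comm]
    -- the constant part vanishes
    have e6 : ∀ u ∈ J, ∑ v ∈ J, α u * (β v * (K u v - 1 / ((l : ℂ) - 1))) =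
        ∑ v ∈ J, α u * β v * K u v := by
      intro u _
      have e7 : ∑ v ∈ J, α u * β v * (1 / ((l : ℂ) - 1)) = 0 := by
        rw [← Finset.sum_mul, ← Finset.mul_sum]
        have e8 : ∑ v ∈ J, β v = 0 := bil_center T b hl
        rw [e8, mul_zero, zero_mul]
      rw [← sub_eq_zero, ← Finset.sum_sub_distrib, ← neg_eq_zero, ← e7, ← Finset.sum_neg_distrib]
      refine sum_congr rfl fun v _ => ?_
      ring
    exact Finset.sum_congr rfl e6
  rw [hmain]
  -- Cauchy-Schwarz on the pairs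
  set E : Finset (ℕ × ℕ) := (J ×ˢ J).filter (fun p => (p.1 * p.2) % l = 1 % l) with hE
  have hsumE : ∀ f : ℕ → ℕ → ℝ, ∑ p ∈ E, f p.1 p.2 =
      ∑ u ∈ J, ∑ v ∈ J.filter (fun v => (u * v) % l = 1 % l), f u v := by
    intro f
    rw [hE, Finset.sum_filter, Finset.sum_product]
    refine sum_congr rfl fun u _ => ?_
    rw [Finset.sum_filter]
  have hA : ∑ p ∈ E, ‖α p.1‖ ^ 2 = Vr S a l := by
    rw [hsumE (fun u _ => ‖α u‖ ^ 2)]
    unfold Vr
    refine sum_congr rfl fun u hu => ?_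
    rw [Finset.sum_const, bil_one hl hu, one_smul]
  have hB : ∑ p ∈ E, ‖β p.2‖ ^ 2 = Vr T b l := by
    rw [hsumE (fun _ v => ‖β v‖ ^ 2)]
    have e1 : ∀ u ∈ J, ∑ v ∈ J.filter (fun v => (u * v) % l = 1 % l), ‖β v‖ ^ 2 =
        ∑ v ∈ J, if (u * v) % l = 1 % l then ‖β v‖ ^ 2 else 0 := by
      intro u _
      rw [Finset.sum_filter]
    rw [Finset.sum_congr rfl e1, Finset.sum_comm]
    unfold Vr
    refine sum_congr rfl fun v hv => ?_
    rw [← Finset.sum_filter, Finset.sum_const]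
    have e2 : (J.filter (fun u => (u * v) % l = 1 % l)).card = 1 := by
      refine Eq.trans (congrArg Finset.card (Finset.filter_congr fun u _ => ?_)) (bil_one hl hv)
      rw [mul_comm]
    rw [e2, one_smul]
  have hbound : ‖∑ u ∈ J, ∑ v ∈ J, α u * β v * K u v‖ ≤ ∑ p ∈ E, ‖α p.1‖ * ‖β p.2‖ := by
    rw [hsumE (fun u v => ‖α u‖ * ‖β v‖)]
    refine (norm_sum_le _ _).trans (Finset.sum_le_sum fun u _ => ?_)
    refine (norm_sum_le _ _).trans ?_
    rw [Finset.sum_filter]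
    refine Finset.sum_le_sum fun v _ => ?_
    simp only [hK]
    split_ifs with h
    · rw [mul_one, norm_mul]
    · rw [mul_zero, norm_zero]
  refine hbound.trans ?_
  rw [← Real.sqrt_mul (by rw [← hA]; positivity), ← hA, ← hB]
  apply Real.le_sqrt_of_sq_le
  exact Finset.sum_mul_sq_le_sq_mul_sq _ _ _

end Pool.Agent.EWG.H89
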