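import Pool.Agent.EWG.StmtsA

set_option autoImplicit false

namespace Pool.Agent.EWG.H89

theorem gcd_gt {r a b : ℕ} (hr : r.Prime) (h1 : r ∣ a) (h2 : r ∣ b) (hb : 0 < b) :
    1 < Nat.gcd a b :=
  hr.one_lt.trans_le (Nat.le_of_dvd (Nat.gcd_pos_of_pos_right _ hb) (Nat.dvd_gcd h1 h2))

theorem ewc : EwcStmt := by
  intro p l hp hl hlp hd
  have hp2 := hp.two_le
  have hl2 := hl.two_le
  have hlep : l ≤ p - 1 := Nat.le_of_dvd (by omega) hlp
  have hltp : l < p := by omega
  have hllp : l ^ 2 ≤ l * p := by
    rw [pow_two]; exact Nat.mul_le_mul_left _ hltp.le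
  set F := (Finset.range (p + l)).filter (fun r => r.Prime ∧ r ≠ p ∧ r ≠ l) with hF
  set P := ∏ r ∈ F, r with hP
  have hcop : Nat.Coprime P (l * p) := by
    rw [hP]
    apply Nat.Coprime.prod_left
    intro r hr
    rw [hF, Finset.mem_filter] at hr
    obtain ⟨-, hr1, hr2, hr3⟩ := hr
    exact Nat.Coprime.mul_right ((Nat.coprime_primes hr1 hl).2 hr3)
      ((Nat.coprime_primes hr1 hp).2 hr2)
  obtain ⟨a, ha1, ha2⟩ := Nat.chineseRemainder hcop 0 (l * p - (p + l))
  have hPa : P ∣ a := (Nat.modEq_zero_iff_dvd).1 ha1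
  have hlpa : l * p ∣ a + (p + l) := by
    have h := Nat.ModEq.add_right (p + l) ha2
    have h2 : l * p - (p + l) + (p + l) = l * p := by omega
    rw [h2] at h
    have h3 : a + (p + l) ≡ 0 [MOD l * p] := h.trans (by
      rw [Nat.modEq_zero_iff_dvd])
    exact (Nat.modEq_zero_iff_dvd).1 h3
  have hla : l ∣ a + (p + l) := (Dvd.intro _ rfl).trans hlpa
  have hpa : p ∣ a + (p + l) := (Dvd.intro_left _ rfl).trans hlpa
  have hrP : ∀ r : ℕ, r.Prime → r ≠ p → r ≠ l → r < p + l → r ∣ a := by
    intro r h1 h2 h3 h4
    have : r ∣ P := by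
      rw [hP]
      apply Finset.dvd_prod_of_mem (fun r : ℕ => r)
      rw [hF, Finset.mem_filter, Finset.mem_range]
      exact ⟨h4, h1, h2, h3⟩
    exact this.trans hPa
  refine ⟨by omega, a, ?_, ?_⟩
  · intro c hac hcd
    obtain ⟨j, rfl⟩ : ∃ j, c = a + j := ⟨c - a, by omega⟩
    have hj0 : 0 < j := by omega
    have hjd : j < p + l := by omega
    by_cases hex : ∃ r : ℕ, r.Prime ∧ r ∣ j ∧ r ≠ p ∧ r ≠ l
    · obtain ⟨r, h1, h2, h3, h4⟩ := hex
      have h5 : r < p + l := (Nat.le_of_dvd hj0 h2).trans_lt hjd
      have h6 := hrP r h1 h3 h4 h5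
      left
      exact gcd_gt h1 h6 (Nat.dvd_add h6 h2) (by omega)
    · push Not at hex
      have hall : ∀ r : ℕ, r.Prime → r ∣ j → r = p ∨ r = l := by
        intro r h1 h2
        by_contra hcon
        push Not at hcon
        exact hcon.2 (hex r h1 h2 hcon.1)
      right
      have hge : ∀ r : ℕ, r = p ∨ r = l → l ≤ r := by
        rintro r (rfl | rfl)
        · exact hltp.le
        · exact le_rfl
      have hj : j = 1 ∨ j = l ∨ j = p := by
        by_cases hj1 : j = 1
        · exact Or.inl hj1
        right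
        have hr := Nat.minFac_prime hj1
        have hrd := Nat.minFac_dvd j
        have hrj := hall _ hr hrd
        obtain ⟨k, hk⟩ := hrd
        by_cases hk1 : k = 1
        · rw [hk1, mul_one] at hk
          rcases hrj with h | h
          · right; omega
          · left; omega
        exfalso
        have hr' := Nat.minFac_prime hk1
        have hrd' := Nat.minFac_dvd k
        have hrj' := hall _ hr' (hrd'.trans ⟨j.minFac, by rw [mul_comm]; exact hk⟩)
        have hk0 : 0 < k := by
          rcases Nat.eq_zero_or_pos k with h | h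
          · rw [h, mul_zero] at hk; omega
          · exact h
        have h1 : l ≤ k := (hge _ hrj').trans (Nat.le_of_dvd hk0 hrd')
        have h2 : l * l ≤ j.minFac * k := Nat.mul_le_mul (hge _ hrj) h1
        rw [← hk, ← pow_two] at h2
        omega
      rcases hj with h | h | h
      · subst h
        have h1 : l ∣ a + 1 := by
          have h2 : l ∣ (p - 1) + l := Nat.dvd_add hlp dvd_rfl
          have h3 : a + (p + l) = (a + 1) + ((p - 1) + l) := by omega
          rw [h3] at hla
          exact (Nat.dvd_add_left h2).1 hla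
        exact gcd_gt hl h1 hla (by omega)
      · subst h
        have h1 : p ∣ a + j := by
          have h3 : a + (p + j) = (a + j) + p := by omega
          rw [h3] at hpa
          exact (Nat.dvd_add_left dvd_rfl).1 hpa
        exact gcd_gt hp h1 hpa (by omega)
      · subst h
        have h1 : l ∣ a + j := by
          have h3 : a + (j + l) = (a + j) + l := by omega
          rw [h3] at hla
          exact (Nat.dvd_add_left dvd_rfl).1 hla
        exact gcd_gt hl h1 hla (by omega)
  · have hset : {q : ℕ | q.Prime ∧ q < p + l ∧ ¬ q ∣ p + l ∧ q ∣ a + (p + l)} = {l, p} := by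
      ext q
      simp only [Set.mem_ofPred_eq, Set.mem_insert_iff, Set.mem_singleton_iff]
      constructor
      · rintro ⟨h1, h2, h3, h4⟩
        by_contra hcon
        push Not at hcon
        have h5 := hrP q h1 hcon.2 hcon.1 h2
        exact h3 ((Nat.dvd_add_right h5).1 h4)
      · rintro (rfl | rfl)
        · refine ⟨hl, by omega, ?_, hla⟩
          intro h
          have h1 := (Nat.dvd_add_left (dvd_refl q)).1 h
          have h2 := (Nat.prime_dvd_prime_iff_eq hl hp).1 h1
          omega
        · refine ⟨hp, by omega, ?_, hpa⟩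
          intro h
          have h1 := (Nat.dvd_add_right (dvd_refl q)).1 h
          have h2 := (Nat.prime_dvd_prime_iff_eq hp hl).1 h1
          omega
    rw [hset]
    exact Set.ncard_pair (by omega)

end Pool.Agent.EWG.H89
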