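import Pool.Agent.EWG.StmtsB

set_option autoImplicit false

namespace Pool.Agent.EWG.H89

open Pool.Agent.PrimeFourier

theorem far : FarStmt := by
  intro Q l l' a a' hl hl' hlQ hlQ' ha hal ha' hal' hne
  have hl0 : (0 : ℝ) < l := by exact_mod_cast hl.pos
  have hl0' : (0 : ℝ) < l' := by exact_mod_cast hl'.pos
  have hQ1 : 1 ≤ Q := hl.one_lt.le.trans hlQ
  by_cases hll : l = l'
  · subst hll
    have haa : a ≠ a' := by
      rcases hne with h | h
      · exact absurd rfl h
      · exact h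
    have hnd : ¬ ((l : ℕ) : ℤ) ∣ ((a : ℤ) - a') := by
      intro h
      have h1 := Int.eq_zero_of_abs_lt_dvd h (by
        rw [abs_lt]; constructor <;> omega)
      omega
    have h := dist1_div_ge hl.pos hnd
    have e1 : (((a : ℤ) - a' : ℤ) : ℝ) / l = (a : ℝ) / l - (a' : ℝ) / l := by
      push_cast; ring
    rw [e1] at h
    refine le_trans ?_ h
    apply one_div_le_one_div_of_le hl0
    have h2 : (l : ℝ) ≤ Q := by exact_mod_cast hlQ
    have h3 : (1 : ℝ) ≤ Q := by exact_mod_cast hQ1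
    nlinarith
  · have hnd : ¬ ((l * l' : ℕ) : ℤ) ∣ ((a : ℤ) * l' - a' * l) := by
      intro h
      have h1 : (l : ℤ) ∣ (a : ℤ) * l' - a' * l := by
        refine dvd_trans ?_ h
        push_cast
        exact Dvd.intro _ rfl
      have h2 : (l : ℤ) ∣ (a : ℤ) * l' := by
        have h3 := dvd_add h1 (Dvd.intro_left (a' : ℤ) rfl : (l : ℤ) ∣ a' * l)
        rwa [sub_add_cancel] at h3
      have h3 : l ∣ a * l' := by exact_mod_cast h2
      rcases (Nat.Prime.dvd_mul hl).1 h3 with h4 | h4
      · exact absurd (Nat.le_of_dvd ha h4) (by omega)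
      · exact hll ((Nat.prime_dvd_prime_iff_eq hl hl').1 h4)
    have h := dist1_div_ge (Nat.mul_pos hl.pos hl'.pos) hnd
    have e1 : (((a : ℤ) * l' - a' * l : ℤ) : ℝ) / ((l * l' : ℕ) : ℝ) =
        (a : ℝ) / l - (a' : ℝ) / l' := by
      push_cast
      field_simp
    rw [e1] at h
    refine le_trans ?_ h
    apply one_div_le_one_div_of_le
    · exact_mod_cast Nat.mul_pos hl.pos hl'.pos
    · have h5 : l * l' ≤ Q ^ 2 := by
        rw [pow_two]; exact Nat.mul_le_mul hlQ hlQ'
      exact_mod_cast h5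

end Pool.Agent.EWG.H89
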