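import Pool.Agent.EWG.StmtsF

/-!
# Row FIN of squad EWG (MP_b66c3b_nt)
-/

set_option autoImplicit false

namespace Pool.Agent.EWG.H89

open Pool.Agent.EWG

theorem fin (h1 : RklStmt) (h2 : RkuStmt) (h3 : PnuStmt) (h4 : CntStmt) (h5 : LosStmt)
    (h6 : RseStmt) : FinStmt := by
  intro ε hε
  obtain ⟨X1, hX1⟩ := h4 (ε / 2) (by linarith)
  obtain ⟨X2, hX2⟩ := h5 (ε / 2) (by linarith)
  obtain ⟨X3, hX3⟩ := h3 ε hε
  refine ⟨max X1 (max X2 X3), fun n hn => ?_⟩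
  have a1 := hX1 n (le_trans (le_max_left _ _) hn)
  have a2 := hX2 n (le_trans ((le_max_left _ _).trans (le_max_right _ _)) hn)
  have a3 := hX3 n (le_trans ((le_max_right _ _).trans (le_max_right _ _)) hn)
  have b1 : ((lpr n).card : ℝ) ≤ (r2Count n : ℝ) + ((lss n).card : ℝ) := by exact_mod_cast h1 n
  have b2 : (r2Count n : ℝ) ≤ (Nat.primeCounting n : ℝ) := by exact_mod_cast h2 n
  refine ⟨?_, ?_, h6 n⟩
  · have e : (1 / 2 - ε) * ((n : ℝ) / Real.log n) = (1 / 2 - ε / 2) * ((n : ℝ) / Real.log n) -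
        ε / 2 * ((n : ℝ) / Real.log n) := by ring
    rw [e]
    linarith
  · rw [← mul_div_assoc]
    exact b2.trans a3

end Pool.Agent.EWG.H89
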