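import Pool.Agent.EWG.StmtsB
import Pool.Agent.Helper53_EWG.SEP
import Pool.Agent.Helper89_EWG.BIL

set_option autoImplicit false

namespace Pool.Agent.EWG.H89

open Finset Pool.Agent.PrimeFourier

theorem var_id (J : Finset ℕ) (A : ℕ → ℂ) (c z : ℂ) (h : ∑ u ∈ J, (A u - c) = 0) :
    ∑ u ∈ J, ‖A u - z‖ ^ 2 = ∑ u ∈ J, ‖A u - c‖ ^ 2 + J.card * ‖c - z‖ ^ 2 := by
  have e1 : ∀ u ∈ J, ‖A u - z‖ ^ 2 = ‖A u - c‖ ^ 2 + ‖c - z‖ ^ 2 +
      2 * ((A u - c) * (starRingEnd ℂ) (c - z)).re := by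
    intro u _
    have e2 : A u - z = (A u - c) + (c - z) := by ring
    rw [e2, ← Complex.normSq_eq_norm_sq, ← Complex.normSq_eq_norm_sq, ← Complex.normSq_eq_norm_sq,
      Complex.normSq_add]
  rw [Finset.sum_congr rfl e1, Finset.sum_add_distrib, Finset.sum_add_distrib, Finset.sum_const,
    nsmul_eq_mul, ← Finset.mul_sum, ← Complex.re_sum, ← Finset.sum_mul, h, zero_mul,
    Complex.zero_re, mul_zero, add_zero]

theorem par : ParStmt := by
  intro s a l hl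
  have hl0 : (0 : ℝ) < l := by exact_mod_cast hl.pos
  have hlc : (l : ℂ) ≠ 0 := by exact_mod_cast hl.ne_zero
  set A : ℕ → ℂ := fun u => cls s a l u with hA
  set Sh : ℕ → ℂ := fun h => ∑ n ∈ s, a n * e ((h : ℝ) / l * n) with hSh
  have hgroup : ∀ h : ℕ, Sh h = ∑ u ∈ range l, A u * e ((h : ℝ) / l * u) := by
    intro h
    refine bil_group s a l hl.pos (fun n => e ((h : ℝ) / l * n)) (fun n => ?_)
    show e ((h : ℝ) / l * n) = e ((h : ℝ) / l * ((n % l : ℕ) : ℝ))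
    have h1 : (h : ℝ) / l * n = (h : ℝ) / l * ((n % l : ℕ) : ℝ) + ((h * (n / l) : ℕ) : ℤ) := by
      have h2 : (n : ℝ) = ((n % l : ℕ) : ℝ) + l * ((n / l : ℕ) : ℝ) := by
        exact_mod_cast (Nat.mod_add_div n l).symm
      have h3 : (l : ℝ) ≠ 0 := hl0.ne'
      obtain ⟨q, hq⟩ : ∃ q : ℕ, q = n / l := ⟨_, rfl⟩
      rw [← hq] at h2 ⊢
      push_cast
      rw [h2]
      field_simp
    rw [h1, e_add_int]
  have hpars : ∑ h ∈ range l, ‖Sh h‖ ^ 2 = l * ∑ u ∈ range l, ‖A u‖ ^ 2 := by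
    have hc : ((∑ h ∈ range l, ‖Sh h‖ ^ 2 : ℝ) : ℂ) = ((l * ∑ u ∈ range l, ‖A u‖ ^ 2 : ℝ) : ℂ) := by
      push_cast
      have e1 : ∀ h ∈ range l, ((‖Sh h‖ : ℂ)) ^ 2 = ∑ u ∈ range l, ∑ v ∈ range l,
          A u * (starRingEnd ℂ) (A v) * e ((((u : ℤ) - v : ℤ) : ℝ) / l * h) := by
        intro h _
        rw [← Complex.mul_conj', hgroup h, map_sum, Finset.sum_mul_sum]
        refine sum_congr rfl fun u _ => sum_congr rfl fun v _ => ?_
        rw [map_mul, conj_e]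
        have e2 : e ((((u : ℤ) - v : ℤ) : ℝ) / l * h) = e ((h : ℝ) / l * u) * e (-((h : ℝ) / l * v)) := by
          rw [← e_add]
          congr 1
          push_cast
          ring
        rw [e2]
        ring
      rw [Finset.sum_congr rfl e1, Finset.sum_comm, Finset.mul_sum]
      refine sum_congr rfl fun u hu => ?_
      rw [Finset.sum_comm]
      rw [mem_range] at hu
      rw [Finset.sum_eq_single u]
      · have e3 : ∀ h ∈ range l, A u * (starRingEnd ℂ) (A u) *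
            e ((((u : ℤ) - u : ℤ) : ℝ) / l * h) = A u * (starRingEnd ℂ) (A u) := by
          intro h _
          rw [sub_self, Int.cast_zero, zero_div, zero_mul, e_zero, mul_one]
        rw [Finset.sum_congr rfl e3, Finset.sum_const, card_range, nsmul_eq_mul, Complex.mul_conj']
      · intro v hv hvu
        rw [mem_range] at hv
        rw [← Finset.mul_sum, H53.orth hl.pos ((u : ℤ) - v) ?_, mul_zero]
        intro h
        have h4 := Int.eq_zero_of_abs_lt_dvd h (by rw [abs_lt]; constructor <;> omega)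
        omega
      · intro h
        exact absurd (mem_range.2 hu) h
    exact_mod_cast hc
  have hS0 : Sh 0 = ∑ u ∈ range l, A u := by
    rw [hgroup 0]
    refine sum_congr rfl fun u _ => ?_
    rw [Nat.cast_zero, zero_div, zero_mul, e_zero, mul_one]
  have hsplit : ∀ f : ℕ → ℝ, ∑ h ∈ range l, f h = f 0 + ∑ h ∈ Ioo 0 l, f h := by
    intro f
    have e1 : range l = insert 0 (Ioo 0 l) := by
      ext x
      rw [mem_range, mem_insert, mem_Ioo]
      have := hl.pos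
      omega
    rw [e1, Finset.sum_insert (by rw [mem_Ioo]; omega)]
  set m : ℂ := (∑ u ∈ range l, A u) / l with hm
  have hm0 : ∑ u ∈ range l, (A u - m) = 0 := by
    rw [Finset.sum_sub_distrib, Finset.sum_const, card_range, nsmul_eq_mul, hm,
      mul_div_cancel₀ _ hlc, sub_self]
  have hv1 := var_id (range l) A m 0 hm0
  rw [card_range] at hv1
  simp only [sub_zero] at hv1
  have hmn : ‖m‖ ^ 2 * (l : ℝ) ^ 2 = ‖Sh 0‖ ^ 2 := by
    rw [hS0, hm, norm_div, Complex.norm_natCast]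
    field_simp
  have hv2 := var_id (Ioo 0 l) A (mn s a l) m (bil_center s a hl)
  have hVr : Vr s a l = ∑ u ∈ Ioo 0 l, ‖A u - mn s a l‖ ^ 2 := rfl
  have hle : Vr s a l ≤ ∑ u ∈ Ioo 0 l, ‖A u - m‖ ^ 2 := by
    rw [hv2, hVr]
    have : 0 ≤ ((Ioo 0 l).card : ℝ) * ‖mn s a l - m‖ ^ 2 := by positivity
    linarith
  have hle2 : ∑ u ∈ Ioo 0 l, ‖A u - m‖ ^ 2 ≤ ∑ u ∈ range l, ‖A u - m‖ ^ 2 := by
    rw [hsplit (fun u => ‖A u - m‖ ^ 2)]
    have : 0 ≤ ‖A 0 - m‖ ^ 2 := by positivity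
    linarith
  rw [hsplit (fun h => ‖Sh h‖ ^ 2)] at hpars
  have hfin : (1 / (l : ℝ)) * ∑ h ∈ Ioo 0 l, ‖Sh h‖ ^ 2 = ∑ u ∈ range l, ‖A u - m‖ ^ 2 := by
    have e1 : ∑ h ∈ Ioo 0 l, ‖Sh h‖ ^ 2 = l * ∑ u ∈ range l, ‖A u‖ ^ 2 - ‖m‖ ^ 2 * (l : ℝ) ^ 2 := by
      rw [hmn]; linarith
    rw [e1, hv1]
    field_simp
    ring
  calc Vr s a l ≤ ∑ u ∈ range l, ‖A u - m‖ ^ 2 := hle.trans hle2
    _ = _ := hfin.symm

end Pool.Agent.EWG.H89
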