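import Pool.Agent.EWG.StmtsA

set_option autoImplicit false

namespace Pool.Agent.EWG.H89

theorem r2_finite (x : ℕ) : {d : ℕ | d ≤ x ∧ IsRankTwo d}.Finite :=
  (Set.finite_Iic x).subset fun _ hd => hd.1

theorem rkl (hE : EwcStmt) (hI : InjStmt) : RklStmt := by
  classical
  intro x
  have key : ∀ p ∈ lpr x \ lss x, ∃ l : ℕ, p.Prime ∧ l.Prime ∧ l ∣ p - 1 ∧ 2 * x < l ^ 2 ∧
      p + l ≤ x := by
    intro p hp
    rw [Finset.mem_sdiff] at hp
    obtain ⟨h1, h2⟩ := hp
    unfold lpr at h1
    unfold lss at h2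
    rw [Finset.mem_filter] at h1 h2
    obtain ⟨h3, h4, l, h5, h6, h7⟩ := h1
    refine ⟨l, h4, h5, h6, h7, ?_⟩
    by_contra hcon
    exact h2 ⟨h3, h4, l, h5, h6, h7, by omega⟩
  choose! L hL using key
  have hcard : (lpr x \ lss x).card ≤ r2Count x := by
    unfold r2Count
    rw [Set.ncard_eq_toFinset_card _ (r2_finite x)]
    refine Finset.card_le_card_of_injOn (fun p => p + L p) ?_ ?_
    · intro p hp
      obtain ⟨h1, h2, h3, h4, h5⟩ := hL p hp
      rw [Set.Finite.coe_toFinset]
      exact ⟨h5, hE p (L p) h1 h2 h3 (by omega)⟩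
    · intro p hp p' hp' heq
      obtain ⟨h1, h2, h3, h4, h5⟩ := hL p hp
      obtain ⟨g1, g2, g3, g4, g5⟩ := hL p' hp'
      have heq' : p + L p = p' + L p' := heq
      have e1 := h1.two_le
      have e2 := g1.two_le
      have hl : L p = L p' := by
        refine hI (p + L p - 1) (p + L p) (L p) (L p') (by omega) (by omega) h2 g2 ?_ ?_
          (by omega) (by omega)
        · have : p + L p - 1 = (p - 1) + L p := by omega
          rw [this]
          exact Nat.dvd_add h3 dvd_rfl
        · have : p + L p - 1 = (p' - 1) + L p' := by omega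
          rw [this]
          exact Nat.dvd_add g3 dvd_rfl
      omega
  have h := Finset.card_le_card_sdiff_add_card (s := lpr x) (t := lss x)
  omega

end Pool.Agent.EWG.H89
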