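import Pool.Agent.EWG.StmtsA

set_option autoImplicit false

namespace Pool.Agent.EWG.H89

theorem rku (hR : Rk2Stmt) (hI : InjStmt) : RkuStmt := by
  classical
  intro x
  have hfin : {d : ℕ | d ≤ x ∧ IsRankTwo d}.Finite :=
    (Set.finite_Iic x).subset fun _ hd => hd.1
  have key : ∀ d ∈ hfin.toFinset, ∃ p l : ℕ, p.Prime ∧ l.Prime ∧ l ∣ p - 1 ∧ d = p + l ∧
      d < l ^ 2 ∧ d ≤ x := by
    intro d hd
    rw [Set.Finite.mem_toFinset] at hd
    obtain ⟨p, l, h1, h2, h3, h4, h5⟩ := hR d hd.2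
    exact ⟨p, l, h1, h2, h3, h4, h5, hd.1⟩
  choose! P L hL using key
  have hpc : Nat.primeCounting x = ((Finset.range (x + 1)).filter Nat.Prime).card := by
    rw [Nat.primeCounting, Nat.primeCounting', Nat.count_eq_card_filter_range]
  unfold r2Count
  rw [Set.ncard_eq_toFinset_card _ hfin, hpc]
  refine Finset.card_le_card_of_injOn P ?_ ?_
  · intro d hd
    obtain ⟨h1, h2, h3, h4, h5, h6⟩ := hL d hd
    rw [Finset.mem_coe, Finset.mem_filter, Finset.mem_range]
    exact ⟨by omega, h1⟩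
  · intro d hd d' hd' heq
    obtain ⟨h1, h2, h3, h4, h5, h6⟩ := hL d hd
    obtain ⟨g1, g2, g3, g4, g5, g6⟩ := hL d' hd'
    have e1 := h1.two_le
    have hl : L d = L d' := by
      refine hI (P d - 1) (P d) (L d) (L d') (by omega) (by omega) h2 g2 h3 ?_
        (by omega) (by omega)
      rw [heq]; exact g3
    omega

end Pool.Agent.EWG.H89
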