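import Pool.Agent.EWG.Defs

set_option autoImplicit false

namespace Pool.Agent.EWG.H89

/-- A certificate has at least two primes. -/
theorem two_le (a d : ℕ) (hd : 3 ≤ d) (h : NoCoprimeInterior a d) :
    2 ≤ {p : ℕ | p.Prime ∧ p < d ∧ ¬ p ∣ d ∧ p ∣ a + d}.ncard := by
  have hfin : {p : ℕ | p.Prime ∧ p < d ∧ ¬ p ∣ d ∧ p ∣ a + d}.Finite :=
    (Set.finite_Iio d).subset fun p hp => hp.2.1
  have key : ∀ j : ℕ, 0 < j → j < d → Nat.gcd a (a + j) = 1 → ∃ r : ℕ, r.Prime ∧ r ∣ a + j ∧ r ∣ a + d ∧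
      r ∣ d - j := by
    intro j hj hjd hg
    rcases h (a + j) (by omega) (by omega) with h1 | h1
    · omega
    · obtain ⟨r, hr, hrd⟩ := Nat.exists_prime_and_dvd (show Nat.gcd (a + j) (a + d) ≠ 1 by omega)
      have h2 := hrd.trans (Nat.gcd_dvd_left _ _)
      have h3 := hrd.trans (Nat.gcd_dvd_right _ _)
      refine ⟨r, hr, h2, h3, ?_⟩
      have h4 : d - j = (a + d) - (a + j) := by omega
      rw [h4]
      exact Nat.dvd_sub h3 h2
  obtain ⟨r, hr, hr1, hr2, hr3⟩ := key 1 one_pos (by omega) (by simp)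
  have hrd : ¬ r ∣ d := by
    intro h1
    have h2 : r ∣ 1 := by
      have h3 : 1 = d - (d - 1) := by omega
      rw [h3]
      exact Nat.dvd_sub h1 hr3
    exact hr.one_lt.ne' (Nat.dvd_one.1 h2)
  have hrlt : r < d := by
    have := Nat.le_of_dvd (by omega) hr3
    omega
  have hg : Nat.gcd a (a + r) = 1 := by
    by_contra hne
    obtain ⟨s, hs, hsd⟩ := Nat.exists_prime_and_dvd hne
    have h1 := hsd.trans (Nat.gcd_dvd_left _ _)
    have h2 := hsd.trans (Nat.gcd_dvd_right _ _)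
    have h3 : s ∣ r := (Nat.dvd_add_right h1).1 h2
    have h4 : s = r := (Nat.prime_dvd_prime_iff_eq hs hr).1 h3
    subst h4
    have h5 : s ∣ 1 := (Nat.dvd_add_right h1).1 hr1
    exact hs.one_lt.ne' (Nat.dvd_one.1 h5)
  obtain ⟨s, hs, hs1, hs2, hs3⟩ := key r hr.pos hrlt hg
  have hsr : s ≠ r := by
    rintro rfl
    apply hrd
    have h3 : d = (d - s) + s := by omega
    rw [h3]
    exact Nat.dvd_add hs3 dvd_rfl
  have hsd : ¬ s ∣ d := by
    intro h1
    have h2 : s ∣ r := by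
      have h3 : r = d - (d - r) := by omega
      rw [h3]
      exact Nat.dvd_sub h1 hs3
    exact hsr ((Nat.prime_dvd_prime_iff_eq hs hr).1 h2)
  have hslt : s < d := by
    have h1 := Nat.le_of_dvd (by omega) hs3
    have h2 := hr.pos
    omega
  have hsub : ({r, s} : Set ℕ) ⊆ {p : ℕ | p.Prime ∧ p < d ∧ ¬ p ∣ d ∧ p ∣ a + d} := by
    intro q hq
    rcases hq with rfl | hq
    · exact ⟨hr, hrlt, hrd, hr2⟩
    · rw [Set.mem_singleton_iff] at hq
      subst hq
      exact ⟨hs, hslt, hsd, hs2⟩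
  have h2 := Set.ncard_le_ncard hsub hfin
  rw [Set.ncard_pair hsr.symm] at h2
  exact h2

end Pool.Agent.EWG.H89
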